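import Pool.Agent.Helper583.TCJ2
import Pool.Agent.Helper583.TCJ13
import Pool.Agent.Helper583.TCJ14

/-!
Relative recursiveness: closure properties, and completeness of the halting set.
-/

set_option autoImplicit false

namespace Pool.Agent.Y63.TopCat

open Pool.Agent.Helper583.TC (orc Red)

/-! ### closure properties of relative recursiveness of total functions -/

theorem r_comp {O : Set (ℕ →. ℕ)} {f g : ℕ → ℕ} (hf : Nat.RecursiveIn O (orc f))
    (hg : Nat.RecursiveIn O (orc g)) : Nat.RecursiveIn O (orc (fun n => f (g n))) :=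
  Pool.Agent.Helper583.TC.J13.tr_comp hf hg

theorem r_pair {O : Set (ℕ →. ℕ)} {f g : ℕ → ℕ} (hf : Nat.RecursiveIn O (orc f))
    (hg : Nat.RecursiveIn O (orc g)) :
    Nat.RecursiveIn O (orc (fun n => Nat.pair (f n) (g n))) :=
  Pool.Agent.Helper583.TC.J13.tr_pair hf hg

theorem r_comput {O : Set (ℕ →. ℕ)} {f : ℕ → ℕ} (hf : Computable f) :
    Nat.RecursiveIn O (orc f) :=
  Nat.Partrec.recursiveIn (Partrec.nat_iff.1 hf)

theorem r_prim {O : Set (ℕ →. ℕ)} {f : ℕ → ℕ} (hf : Primrec f) :
    Nat.RecursiveIn O (orc f) :=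
  r_comput hf.to_comp

/-- a primitive recursive function of two values -/
theorem r_map₂ {O : Set (ℕ →. ℕ)} {F : ℕ → ℕ → ℕ} (hF : Primrec₂ F) {f g : ℕ → ℕ}
    (hf : Nat.RecursiveIn O (orc f)) (hg : Nat.RecursiveIn O (orc g)) :
    Nat.RecursiveIn O (orc (fun n => F (f n) (g n))) := by
  have h1 : Primrec (fun q : ℕ => F q.unpair.1 q.unpair.2) :=
    hF.comp (Primrec.fst.comp Primrec.unpair) (Primrec.snd.comp Primrec.unpair)
  have h2 := r_comp (r_prim (O := O) h1) (r_pair hf hg)
  simpa using h2

/-- least number search -/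
theorem r_find {O : Set (ℕ →. ℕ)} {Q : ℕ → ℕ} (hQ : Nat.RecursiveIn O (orc Q)) {a : ℕ → ℕ}
    (h1 : ∀ n, Q (Nat.pair n (a n)) = 0) (h2 : ∀ n s, s < a n → Q (Nat.pair n s) ≠ 0) :
    Nat.RecursiveIn O (orc a) := by
  have hR := Nat.RecursiveIn.rfind hQ
  refine hR.of_eq_tot ?_
  intro n
  refine Nat.mem_rfind.2 ⟨?_, ?_⟩
  · simp [orc, h1]
  · intro m hm
    simp [orc, h2 n m hm]

/-- primitive recursion along the second component, with the first one as a parameter -/
theorem r_rec {O : Set (ℕ →. ℕ)} {F : ℕ → ℕ → ℕ → ℕ} (z : ℕ)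
    (hF : Nat.RecursiveIn O (orc (fun p => F (Nat.unpair p).1 (Nat.unpair (Nat.unpair p).2).1
      (Nat.unpair (Nat.unpair p).2).2))) :
    Nat.RecursiveIn O (orc (fun p => Nat.rec z (fun y IH => F (Nat.unpair p).1 y IH)
      (Nat.unpair p).2)) := by
  have h := Pool.Agent.Helper583.TC.J13.tr_prec (O := O) (f := fun _ => z)
    (r_prim (Primrec.const z)) hF
  simpa using h

/-- the product of the values below `n` -/
theorem r_prod {O : Set (ℕ →. ℕ)} {f : ℕ → ℕ → ℕ}
    (hf : Nat.RecursiveIn O (orc (fun p => f (Nat.unpair p).1 (Nat.unpair p).2))) :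
    Nat.RecursiveIn O (orc (fun p => ∏ i ∈ Finset.range (Nat.unpair p).2,
      f (Nat.unpair p).1 i)) := by
  have h1 : Nat.RecursiveIn O (orc (fun p => (Nat.unpair (Nat.unpair p).2).2 *
      f (Nat.unpair p).1 (Nat.unpair (Nat.unpair p).2).1)) := by
    have h2 : Nat.RecursiveIn O (orc (fun p => f (Nat.unpair p).1
        (Nat.unpair (Nat.unpair p).2).1)) := by
      have h3 : Primrec (fun p : ℕ => Nat.pair (Nat.unpair p).1
          (Nat.unpair (Nat.unpair p).2).1) :=
        Primrec₂.natPair.comp (Primrec.fst.comp Primrec.unpair)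
          (Primrec.fst.comp (Primrec.unpair.comp (Primrec.snd.comp Primrec.unpair)))
      have h4 := r_comp hf (r_prim (O := O) h3)
      simpa using h4
    exact r_map₂ Primrec.nat_mul (r_prim (O := O)
      (Primrec.snd.comp (Primrec.unpair.comp (Primrec.snd.comp Primrec.unpair)))) h2
  have h2 := r_rec (O := O) (F := fun a y IH => IH * f a y) 1 h1
  refine h2.of_eq fun p => ?_
  have key : ∀ (a n : ℕ), (Nat.rec 1 (fun y IH => IH * f a y) n : ℕ) =
      ∏ i ∈ Finset.range n, f a i := by
    intro a n
    induction n with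
    | zero => simp
    | succ n ih => rw [Finset.prod_range_succ, ← ih]
  exact congrArg Part.some (key (Nat.unpair p).1 (Nat.unpair p).2)

/-- the sum of the values below `n` -/
theorem r_sum {O : Set (ℕ →. ℕ)} {f : ℕ → ℕ} (hf : Nat.RecursiveIn O (orc f)) :
    Nat.RecursiveIn O (orc (fun n => ∑ i ∈ Finset.range n, f i)) := by
  have h1 : Nat.RecursiveIn O (orc (fun p => (Nat.unpair (Nat.unpair p).2).2 +
      f (Nat.unpair (Nat.unpair p).2).1)) := by
    refine r_map₂ Primrec.nat_add (r_prim (O := O)
      (Primrec.snd.comp (Primrec.unpair.comp (Primrec.snd.comp Primrec.unpair)))) ?_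
    exact r_comp hf (r_prim (O := O)
      (Primrec.fst.comp (Primrec.unpair.comp (Primrec.snd.comp Primrec.unpair))))
  have h2 := r_rec (O := O) (F := fun _ y IH => IH + f y) 0 h1
  have h3 : Primrec (fun n : ℕ => Nat.pair 0 n) :=
    Primrec₂.natPair.comp (Primrec.const 0) Primrec.id
  have h4 := r_comp h2 (r_prim (O := O) h3)
  refine h4.of_eq fun n => ?_
  have key : ∀ n : ℕ, (Nat.rec 0 (fun y IH => IH + f y) n : ℕ) =
      ∑ i ∈ Finset.range n, f i := by
    intro n
    induction n with
    | zero => simp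
    | succ n ih => rw [Finset.sum_range_succ, ← ih]
  show Part.some (Nat.rec 0 (fun y IH => IH + f y) (Nat.unpair (Nat.pair 0 n)).2 : ℕ) =
    Part.some _
  rw [Nat.unpair_pair, key]

/-! ### the halting set -/

open Nat.Partrec (Code)
open Nat.Partrec.Code

/-- the halting set: the `n`-th program halts on input `0` -/
def K (n : ℕ) : Prop := (Code.eval (Denumerable.ofNat Code n) 0).Dom

open Classical in
/-- characteristic function -/
noncomputable def chi (A : ℕ → Prop) (n : ℕ) : ℕ := if A n then 1 else 0

theorem K_re : REPred K := by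
  have h1 := ComputablePred.halting_problem_re 0
  unfold REPred at h1 ⊢
  exact h1.comp (Computable.ofNat Code)

theorem K_not_computable : ¬ ComputablePred K := by
  intro h
  apply ComputablePred.halting_problem 0
  obtain ⟨f, hf, hfK⟩ := ComputablePred.computable_iff.1 h
  refine ComputablePred.computable_iff.2 ⟨fun c => f (Encodable.encode c),
    hf.comp Computable.encode, ?_⟩
  funext c
  have := congrFun hfK (Encodable.encode c)
  unfold K at this
  rw [Denumerable.ofNat_encode] at this
  exact this

/-- The halting set is complete: every recursively enumerable set is recursive in it. -/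
theorem red_chi_K {B : ℕ → Prop} (hB : REPred B) : Red (chi B) (chi K) := by
  unfold REPred at hB
  have h1 : Nat.Partrec (fun n : ℕ => (Part.assert (B n) fun _ => Part.some 0 : Part ℕ)) := by
    have h2 : Partrec (fun n : ℕ => (Part.assert (B n) fun _ => Part.some ()).map
        (fun _ => (0 : ℕ))) := hB.map (Computable.const 0)
    refine (Partrec.nat_iff.1 h2).of_eq fun n => ?_
    apply Part.ext
    intro m
    simp [Part.mem_map_iff, Part.mem_assert_iff]
    tauto
  obtain ⟨c, hc⟩ := exists_code.1 h1
  have h3 : ∀ n, B n ↔ K (Encodable.encode (curry (Code.comp c Code.left) n)) := by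
    intro n
    unfold K
    rw [Denumerable.ofNat_encode, eval_curry]
    have h4 : eval (Code.comp c Code.left) (Nat.pair n 0) = eval c n := by
      have h5 : eval Code.left (Nat.pair n 0) = Part.some n := by
        show Part.some (Nat.unpair (Nat.pair n 0)).1 = Part.some n
        rw [Nat.unpair_pair]
      show (eval Code.left (Nat.pair n 0)) >>= eval c = eval c n
      rw [h5]
      exact Part.bind_some _ _
    rw [h4, hc]
    simp [Part.assert]
  have h4 : Primrec (fun n : ℕ => Encodable.encode (curry (Code.comp c Code.left) n)) :=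
    Primrec.encode.comp (primrec₂_curry.comp (Primrec.const _) Primrec.id)
  have h5 : Nat.RecursiveIn {orc (chi K)} (orc (chi K)) := Nat.RecursiveIn.oracle _ rfl
  have h6 := r_comp h5 (r_prim h4)
  refine h6.of_eq fun n => ?_
  show Part.some (chi K (Encodable.encode (curry (Code.comp c Code.left) n))) =
    Part.some (chi B n)
  congr 1
  unfold chi
  by_cases h : B n
  · rw [if_pos h, if_pos ((h3 n).1 h)]
  · rw [if_neg h, if_neg (fun hk => h ((h3 n).2 hk))]

end Pool.Agent.Y63.TopCat
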