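import Pool.Agent.Y63.TopCat.Upper

/-!
The halting set computes the enumeration of the points of an infinite discrete presentation.
-/

set_option autoImplicit false

namespace Pool.Agent.Y63.TopCat

open Pool.Agent.Helper583.TC (orc Red)
open Pool.Agent.Helper583.TT (CMS IsName)
open Pool.Agent.H109R3.TC (CompMapIn Cat CatBoth)

section
variable (M : CMS)

/-- the index `i` is the first index of its point -/
def New (i : ℕ) : Prop := ∀ j < i, M.c j ≠ M.c i

theorem surj [DiscreteTopology M.Y] (x : M.Y) : ∃ i, M.c i = x := by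
  have h := M.dense
  rw [DenseRange, dense_iff_closure_eq, closure_discrete] at h
  exact (h ▸ Set.mem_univ x : x ∈ Set.range M.c)

open Classical in
/-- the first index of a point -/
noncomputable def idx [DiscreteTopology M.Y] (x : M.Y) : ℕ := Nat.find (surj M x)

theorem c_idx [DiscreteTopology M.Y] (x : M.Y) : M.c (idx M x) = x := by
  classical
  exact Nat.find_spec (surj M x)

theorem idx_min [DiscreteTopology M.Y] (x : M.Y) {j : ℕ} (h : j < idx M x) : M.c j ≠ x := by
  classical
  exact Nat.find_min (surj M x) h

theorem new_idx [DiscreteTopology M.Y] (x : M.Y) : New M (idx M x) := by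
  intro j hj
  rw [c_idx]
  exact idx_min M x hj

theorem idx_new [DiscreteTopology M.Y] {i : ℕ} (h : New M i) : idx M (M.c i) = i := by
  by_contra hne
  rcases lt_or_gt_of_ne hne with h1 | h1
  · exact h _ h1 (c_idx M _)
  · exact idx_min M (M.c i) h1 rfl

theorem infinite_new [DiscreteTopology M.Y] [Infinite M.Y] : (setOf (New M)).Infinite := by
  intro hfin
  have h1 : (Set.univ : Set M.Y) ⊆ M.c '' (setOf (New M)) := by
    intro x _
    exact ⟨idx M x, new_idx M x, c_idx M x⟩
  exact Set.infinite_univ ((hfin.image _).subset h1)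

open Classical in
/-- the number of points before the index `i` -/
noncomputable def cnt (i : ℕ) : ℕ := Nat.count (New M) i

/-- the first index of the `r`-th point -/
noncomputable def nth (r : ℕ) : ℕ := Nat.nth (New M) r

theorem new_nth [DiscreteTopology M.Y] [Infinite M.Y] (r : ℕ) : New M (nth M r) :=
  Nat.nth_mem_of_infinite (infinite_new M) r

theorem cnt_nth [DiscreteTopology M.Y] [Infinite M.Y] (r : ℕ) : cnt M (nth M r) = r := by
  classical
  unfold cnt nth
  exact Nat.count_nth_of_infinite (infinite_new M) r

theorem nth_cnt {i : ℕ} (h : New M i) : nth M (cnt M i) = i := by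
  classical
  unfold cnt nth
  exact Nat.nth_count h

/-- the enumeration of the points -/
noncomputable def enu [DiscreteTopology M.Y] [Infinite M.Y] : ℕ ≃ M.Y where
  toFun r := M.c (nth M r)
  invFun x := cnt M (idx M x)
  left_inv r := by
    show cnt M (idx M (M.c (nth M r))) = r
    rw [idx_new M (new_nth M r), cnt_nth]
  right_inv x := by
    show M.c (nth M (cnt M (idx M x))) = x
    rw [nth_cnt M (new_idx M x), c_idx]

end

/-- the homeomorphism between two infinite discrete presentations -/
noncomputable def hom (M N : CMS) [DiscreteTopology M.Y] [Infinite M.Y] [DiscreteTopology N.Y]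
    [Infinite N.Y] : M.Y ≃ₜ N.Y where
  toEquiv := (enu M).symm.trans (enu N)
  continuous_toFun := continuous_of_discreteTopology
  continuous_invFun := continuous_of_discreteTopology

theorem hom_symm (M N : CMS) [DiscreteTopology M.Y] [Infinite M.Y] [DiscreteTopology N.Y]
    [Infinite N.Y] : (hom M N).symm = hom N M := by
  ext x
  rfl

theorem hom_apply (M N : CMS) [DiscreteTopology M.Y] [Infinite M.Y] [DiscreteTopology N.Y]
    [Infinite N.Y] (x : M.Y) : hom M N x = N.c (nth N (cnt M (idx M x))) := rfl

/-! ### everything is recursive in the halting set -/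

theorem red_new (M : CMS) : Red (chi (New M)) (chi K) := by
  have h1 : Nat.RecursiveIn {orc (chi K)} (orc (chi (NE M))) := red_chi_K (ne_re M)
  have h2 : Nat.RecursiveIn {orc (chi K)}
      (orc (fun p => chi (NE M) (Nat.pair (Nat.unpair p).2 (Nat.unpair p).1))) :=
    r_comp h1 (r_prim (Primrec₂.natPair.comp (Primrec.snd.comp Primrec.unpair)
      (Primrec.fst.comp Primrec.unpair)))
  have h3 := r_prod (f := fun a i => chi (NE M) (Nat.pair i a)) h2
  have h4 := r_comp h3 (r_prim (O := {orc (chi K)}) (f := fun i => Nat.pair i i)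
    (Primrec₂.natPair.comp Primrec.id Primrec.id))
  refine h4.of_eq fun i => ?_
  refine congrArg Part.some ?_
  show ∏ j ∈ Finset.range (Nat.unpair (Nat.pair i i)).2,
    chi (NE M) (Nat.pair j (Nat.unpair (Nat.pair i i)).1) = chi (New M) i
  rw [Nat.unpair_pair]
  show ∏ j ∈ Finset.range i, chi (NE M) (Nat.pair j i) = chi (New M) i
  by_cases h : New M i
  · rw [chi, if_pos h]
    apply Finset.prod_eq_one
    intro j hj
    rw [chi, if_pos]
    unfold NE
    rw [Nat.unpair_pair]
    exact h j (Finset.mem_range.1 hj)
  · rw [chi, if_neg h]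
    unfold New at h
    push Not at h
    obtain ⟨j, hj, hjc⟩ := h
    apply Finset.prod_eq_zero (Finset.mem_range.2 hj)
    rw [chi, if_neg]
    unfold NE
    rw [Nat.unpair_pair]
    exact fun hh => hh hjc

theorem cnt_eq (M : CMS) (i : ℕ) : cnt M i = ∑ j ∈ Finset.range i, chi (New M) j := by
  classical
  unfold cnt
  induction i with
  | zero => simp
  | succ i ih =>
    rw [Nat.count_succ, Finset.sum_range_succ, ← ih]
    rfl

theorem red_cnt (M : CMS) : Red (cnt M) (chi K) := by
  have h := r_sum (red_new M)
  refine Nat.RecursiveIn.of_eq h fun i => ?_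
  refine congrArg Part.some ?_
  exact (cnt_eq M i).symm

theorem red_nth (M : CMS) [DiscreteTopology M.Y] [Infinite M.Y] : Red (nth M) (chi K) := by
  have h1 : Nat.RecursiveIn {orc (chi K)} (orc (fun p => chi (New M) (Nat.unpair p).2)) :=
    r_comp (red_new M) (r_prim (Primrec.snd.comp Primrec.unpair))
  have h2 : Nat.RecursiveIn {orc (chi K)} (orc (fun p => cnt M (Nat.unpair p).2)) :=
    r_comp (red_cnt M) (r_prim (Primrec.snd.comp Primrec.unpair))
  have e1 : Primrec₂ (fun a b : ℕ => if a = b then 0 else 1) :=
    Primrec.ite (Primrec.eq.comp Primrec.fst Primrec.snd) (Primrec.const 0) (Primrec.const 1)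
  have h3 := r_map₂ e1 h2 (r_prim (O := {orc (chi K)}) (Primrec.fst.comp Primrec.unpair))
  have e2 : Primrec₂ (fun a b : ℕ => if a = 0 then 1 else b) :=
    Primrec.ite (Primrec.eq.comp Primrec.fst (Primrec.const 0)) (Primrec.const 1) Primrec.snd
  have h4 := r_map₂ e2 h1 h3
  refine r_find h4 ?_ ?_
  · intro r
    simp only [Nat.unpair_pair]
    rw [chi, if_pos (new_nth M r), cnt_nth]
    simp
  · intro r s hs
    simp only [Nat.unpair_pair]
    by_cases hn : New M s
    · rw [chi, if_pos hn, if_neg (by norm_num)]
      have : cnt M s ≠ r := by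
        rintro rfl
        rw [nth_cnt M hn] at hs
        exact lt_irrefl _ hs
      rw [if_neg this]
      norm_num
    · rw [chi, if_neg hn]
      simp

theorem red_first (M : CMS) [DiscreteTopology M.Y] :
    Red (fun i => idx M (M.c i)) (chi K) := by
  have h1 : Nat.RecursiveIn {orc (chi K)} (orc (chi (NE M))) := red_chi_K (ne_re M)
  refine r_find h1 ?_ ?_
  · intro i
    rw [chi, if_neg]
    unfold NE
    rw [Nat.unpair_pair]
    exact fun h => h (c_idx M (M.c i)).symm
  · intro i s hs
    rw [chi, if_pos]
    · norm_num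
    · unfold NE
      rw [Nat.unpair_pair]
      exact (idx_min M (M.c i) hs).symm

/-- the index of the image of the point with index `i` -/
noncomputable def tau (M N : CMS) [DiscreteTopology M.Y] (i : ℕ) : ℕ :=
  nth N (cnt M (idx M (M.c i)))

theorem red_tau (M N : CMS) [DiscreteTopology M.Y] [DiscreteTopology N.Y] [Infinite N.Y] :
    Red (tau M N) (chi K) :=
  r_comp (f := nth N) (g := fun i => cnt M (idx M (M.c i))) (red_nth N)
    (r_comp (f := cnt M) (g := fun i => idx M (M.c i)) (red_cnt M) (red_first M))

/-- the information used by the functional -/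
noncomputable def dat (M N : CMS) [DiscreteTopology M.Y] (m : ℕ) : ℕ :=
  Nat.pair (chi (NI M) m) (tau M N m.unpair.1)

theorem red_dat (M N : CMS) [DiscreteTopology M.Y] [DiscreteTopology N.Y] [Infinite N.Y] :
    Red (dat M N) (chi K) :=
  r_pair (red_chi_K (ni_re M)) (r_comp (red_tau M N) (r_prim (Primrec.fst.comp Primrec.unpair)))

end Pool.Agent.Y63.TopCat
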