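import Pool.Agent.Y63.TopCat.Main

/-!
A computable presentation of the infinite discrete space which codes the halting set.
-/

set_option autoImplicit false

namespace Pool.Agent.Y63.TopCat

open Pool.Agent.Helper583.TC (orc Red)
open Pool.Agent.Helper583.TT (CMS IsName)
open Pool.Agent.H109R3.TC (CompMapIn Cat CatBoth)

open Nat.Partrec (Code)
open Nat.Partrec.Code

/-- the program `e` halts on input `0` within `s` steps -/
def halt (e s : ℕ) : Bool := (evaln s (Denumerable.ofNat Code e) 0).isSome

theorem primrec_halt : Primrec₂ halt := by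
  unfold halt
  refine Primrec.option_isSome.comp ?_
  exact primrec_evaln.comp (Primrec.pair (Primrec.pair Primrec.snd
    ((Primrec.ofNat Code).comp Primrec.fst)) (Primrec.const 0))

theorem K_iff (e : ℕ) : K e ↔ ∃ s, halt e s = true := by
  unfold K halt
  rw [Part.dom_iff_mem]
  constructor
  · rintro ⟨y, hy⟩
    obtain ⟨s, hs⟩ := evaln_complete.1 hy
    exact ⟨s, by rw [Option.isSome_iff_exists]; exact ⟨y, hs⟩⟩
  · rintro ⟨s, hs⟩
    obtain ⟨y, hy⟩ := Option.isSome_iff_exists.1 hs
    exact ⟨y, evaln_complete.2 ⟨s, hy⟩⟩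

open Classical in
/-- the distance of the two points of the `e`-th block -/
noncomputable def rr (e : ℕ) : ℝ := if h : ∃ s, halt e s = true then 1 / 2 ^ (Nat.find h + 1) else 0

theorem rr_nonneg (e : ℕ) : 0 ≤ rr e := by
  unfold rr
  split
  · positivity
  · exact le_rfl

theorem rr_le (e : ℕ) : rr e ≤ 1 / 2 := by
  unfold rr
  split
  · rename_i h
    rw [pow_succ, one_div, one_div, mul_inv]
    have h1 : ((2 : ℝ) ^ Nat.find h)⁻¹ ≤ 1 := by
      apply inv_le_one_of_one_le₀
      exact one_le_pow₀ (by norm_num)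
    linarith [h1]
  · norm_num

theorem rr_eq_zero (e : ℕ) : rr e = 0 ↔ ¬ K e := by
  rw [K_iff]
  unfold rr
  split
  · rename_i h
    constructor
    · intro h0
      exfalso
      have : (0 : ℝ) < 1 / 2 ^ (Nat.find h + 1) := by positivity
      linarith
    · intro h0
      exact absurd h h0
  · rename_i h
    exact ⟨fun _ => h, fun _ => rfl⟩

/-- approximation of `rr e` -/
def ap (e : ℕ) : ℕ → ℕ
  | 0 => 0
  | k + 1 => if ap e k = 0 then (if halt e k then 1 else 0) else 2 * ap e k

theorem primrec_ap : Primrec₂ ap := by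
  have h : Primrec₂ (fun (e k : ℕ) => (Nat.rec 0 (fun k IH => if IH = 0 then
      (if halt e k then 1 else 0) else 2 * IH) k : ℕ)) := by
    refine Primrec.nat_rec (f := fun _ : ℕ => 0) (g := fun (e : ℕ) (q : ℕ × ℕ) =>
      if q.2 = 0 then (if halt e q.1 then 1 else 0) else 2 * q.2) (Primrec.const 0) ?_
    refine Primrec.ite (Primrec.eq.comp (Primrec.snd.comp Primrec.snd) (Primrec.const 0)) ?_ ?_
    · refine Primrec.ite ?_ (Primrec.const 1) (Primrec.const 0)
      exact Primrec.eq.comp (primrec_halt.comp Primrec.fst (Primrec.fst.comp Primrec.snd))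
        (Primrec.const true)
    · exact Primrec.nat_mul.comp (Primrec.const 2) (Primrec.snd.comp Primrec.snd)
  refine h.of_eq fun e k => ?_
  induction k with
  | zero => rfl
  | succ k ih =>
    show (if (Nat.rec 0 (fun k IH => if IH = 0 then
      (if halt e k then 1 else 0) else 2 * IH) k : ℕ) = 0 then (if halt e k then 1 else 0)
      else 2 * (Nat.rec 0 (fun k IH => if IH = 0 then
      (if halt e k then 1 else 0) else 2 * IH) k : ℕ)) = ap e (k + 1)
    rw [ih]
    rfl

theorem ap_spec (e k : ℕ) :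
    ((∀ s < k, halt e s = false) ∧ ap e k = 0) ∨
    (∃ s < k, halt e s = true ∧ (∀ s' < s, halt e s' = false) ∧ ap e k * 2 ^ (s + 1) = 2 ^ k) := by
  induction k with
  | zero => left; exact ⟨fun s hs => absurd hs (Nat.not_lt_zero s), rfl⟩
  | succ k ih =>
    rcases ih with ⟨h1, h2⟩ | ⟨s, hs, h1, h2, h3⟩
    · cases hh : halt e k with
      | false =>
        left
        refine ⟨fun s hs => ?_, ?_⟩
        · rcases Nat.lt_succ_iff_lt_or_eq.1 hs with h | rfl
          · exact h1 s h
          · exact hh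
        · simp [ap, h2, hh]
      | true =>
        right
        refine ⟨k, Nat.lt_succ_self k, hh, h1, ?_⟩
        simp [ap, h2, hh]
    · right
      refine ⟨s, Nat.lt_succ_of_lt hs, h1, h2, ?_⟩
      have h4 : ap e k ≠ 0 := by
        intro h4
        rw [h4, zero_mul] at h3
        exact absurd h3.symm (by positivity)
      have h5 : ap e (k + 1) = 2 * ap e k := by simp [ap, h4]
      rw [h5, pow_succ 2 k, ← h3]
      ring

theorem rr_ap (e k : ℕ) : |rr e - (ap e k : ℝ) / 2 ^ k| ≤ 1 / 2 ^ (k + 1) := by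
  rcases ap_spec e k with ⟨h1, h2⟩ | ⟨s, hs, h1, h2, h3⟩
  · rw [h2]
    simp only [Nat.cast_zero, zero_div, sub_zero]
    rw [abs_of_nonneg (rr_nonneg e)]
    unfold rr
    split
    · rename_i h
      have h4 : k ≤ Nat.find h := by
        by_contra hlt
        have := h1 _ (not_le.1 hlt)
        rw [Nat.find_spec h] at this
        exact absurd this (by simp)
      apply one_div_le_one_div_of_le (by positivity)
      exact pow_le_pow_right₀ (by norm_num) (by omega)
    · positivity
  · have h4 : rr e = 1 / 2 ^ (s + 1) := by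
      unfold rr
      have h : ∃ s, halt e s = true := ⟨s, h1⟩
      rw [dif_pos h]
      have h5 : Nat.find h = s := by
        rw [Nat.find_eq_iff]
        refine ⟨h1, fun n hn => ?_⟩
        rw [h2 n hn]
        simp
      rw [h5]
    have h5 : (ap e k : ℝ) * 2 ^ (s + 1) = 2 ^ k := by exact_mod_cast h3
    have h6 : rr e = (ap e k : ℝ) / 2 ^ k := by
      rw [h4, ← h5]
      have h7 : (ap e k : ℝ) ≠ 0 := by
        intro h7
        rw [h7, zero_mul] at h5
        exact absurd h5.symm (by positivity)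
      field_simp
    rw [h6, sub_self, abs_zero]
    positivity

/-- the position of the point with index `i` -/
noncomputable def pos (i : ℕ) : ℝ :=
  2 * ((i / 2 : ℕ) : ℝ) + if i % 2 = 0 then 0 else rr (i / 2)

/-- its approximation -/
def posA (i k : ℕ) : ℕ := 2 * (i / 2) * 2 ^ k + if i % 2 = 0 then 0 else ap (i / 2) k

theorem primrec_posA : Primrec₂ posA := by
  unfold posA
  have hpow : Primrec₂ (fun a b : ℕ => a ^ b) := Primrec₂.unpaired'.1 Nat.Primrec.pow
  have h2 : Primrec (fun x : ℕ × ℕ => x.1 / 2) :=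
    Primrec.nat_div.comp Primrec.fst (Primrec.const 2)
  refine Primrec.nat_add.comp ?_ ?_
  · exact Primrec.nat_mul.comp (Primrec.nat_mul.comp (Primrec.const 2) h2)
      (hpow.comp (Primrec.const 2) Primrec.snd)
  · refine Primrec.ite (Primrec.eq.comp (Primrec.nat_mod.comp Primrec.fst (Primrec.const 2))
      (Primrec.const 0)) (Primrec.const 0) ?_
    exact primrec_ap.comp h2 Primrec.snd

theorem pos_approx (i k : ℕ) : |pos i - (posA i k : ℝ) / 2 ^ k| ≤ 1 / 2 ^ (k + 1) := by
  unfold pos posA
  push_cast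
  by_cases h : i % 2 = 0
  · rw [if_pos h, if_pos h]
    have h1 : (2 * ((i / 2 : ℕ) : ℝ) + 0 - (2 * ((i / 2 : ℕ) : ℝ) * 2 ^ k + 0) / 2 ^ k) = 0 := by
      field_simp
      ring
    rw [h1, abs_zero]
    positivity
  · rw [if_neg h, if_neg h]
    have h1 : (2 * ((i / 2 : ℕ) : ℝ) + rr (i / 2) -
        (2 * ((i / 2 : ℕ) : ℝ) * 2 ^ k + (ap (i / 2) k : ℝ)) / 2 ^ k) =
        rr (i / 2) - (ap (i / 2) k : ℝ) / 2 ^ k := by
      field_simp
      ring
    rw [h1]
    exact rr_ap _ _

end Pool.Agent.Y63.TopCat
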