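import Pool.Agent.Y63.TopCat.Gadget

/-!
An oracle relative to which the infinite discrete space is categorical computes the halting set.
-/

set_option autoImplicit false

namespace Pool.Agent.Y63.TopCat

open Pool.Agent.Helper583.TC (orc Red)
open Pool.Agent.Helper583.TT (CMS IsName)
open Pool.Agent.H109R3.TC (CompMapIn Cat CatBoth)
open Pool.Agent.Helper583.TC.J2 (select)

/-- the underlying set of the gadget -/
def Sg : Set ℝ := Set.range pos

theorem pos_mem (i : ℕ) : 2 * ((i / 2 : ℕ) : ℝ) ≤ pos i ∧ pos i ≤ 2 * ((i / 2 : ℕ) : ℝ) + 1 / 2 := by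
  unfold pos
  have h1 := rr_nonneg (i / 2)
  have h2 := rr_le (i / 2)
  split
  · constructor <;> linarith
  · constructor <;> linarith

theorem finite_near (x : ℝ) : (Sg ∩ Metric.ball x 1).Finite := by
  have h : Sg ∩ Metric.ball x 1 ⊆ pos '' (Set.Iio (2 * ⌈|x| + 2⌉₊)) := by
    rintro y ⟨⟨i, rfl⟩, hy⟩
    refine ⟨i, ?_, rfl⟩
    rw [Set.mem_Iio]
    rw [Metric.mem_ball, Real.dist_eq] at hy
    have h1 := (pos_mem i).1
    have h2 := (abs_lt.1 hy).2
    have h3 := le_abs_self x
    have h4 : ((i / 2 : ℕ) : ℝ) < |x| + 2 := by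
      have h5 : (0 : ℝ) ≤ ((i / 2 : ℕ) : ℝ) := Nat.cast_nonneg _
      linarith
    have h6 : ((i / 2 : ℕ) : ℝ) < (⌈|x| + 2⌉₊ : ℝ) := lt_of_lt_of_le h4 (Nat.le_ceil _)
    have h7 : i / 2 < ⌈|x| + 2⌉₊ := by exact_mod_cast h6
    omega
  exact (Set.Finite.image _ (Set.finite_Iio _)).subset h

theorem isClosed_Sg : IsClosed Sg := by
  rw [← isOpen_compl_iff, Metric.isOpen_iff]
  intro x hx
  have h1 : IsOpen (Metric.ball x 1 \ (Sg ∩ Metric.ball x 1)) :=
    Metric.isOpen_ball.sdiff (finite_near x).isClosed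
  have h2 : x ∈ Metric.ball x 1 \ (Sg ∩ Metric.ball x 1) :=
    ⟨Metric.mem_ball_self one_pos, fun h => hx h.1⟩
  obtain ⟨ε, hε, h3⟩ := Metric.isOpen_iff.1 h1 x h2
  refine ⟨ε, hε, fun y hy hyS => ?_⟩
  have h4 := h3 hy
  exact h4.2 ⟨hyS, h4.1⟩

theorem discrete_Sg : DiscreteTopology Sg := by
  rw [discreteTopology_iff_forall_isOpen]
  intro A
  rw [isOpen_iff_forall_mem_open]
  intro x hx
  refine ⟨{x}, Set.singleton_subset_iff.2 hx, ?_, rfl⟩
  have h1 : IsOpen (Metric.ball (x : ℝ) 1 \ ((Sg ∩ Metric.ball (x : ℝ) 1) \ {(x : ℝ)})) :=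
    Metric.isOpen_ball.sdiff ((finite_near x).sdiff).isClosed
  have h2 : ({x} : Set Sg) = Subtype.val ⁻¹'
      (Metric.ball (x : ℝ) 1 \ ((Sg ∩ Metric.ball (x : ℝ) 1) \ {(x : ℝ)})) := by
    ext y
    rw [Set.mem_singleton_iff]
    constructor
    · rintro rfl
      exact ⟨Metric.mem_ball_self one_pos, fun h => h.2 rfl⟩
    · rintro ⟨h3, h4⟩
      by_contra hne
      exact h4 ⟨⟨y.2, h3⟩, fun h => hne (Subtype.ext h)⟩
  rw [h2]
  exact h1.preimage continuous_subtype_val

theorem infinite_Sg : Infinite Sg := by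
  refine Infinite.of_injective (fun e : ℕ => (⟨pos (2 * e), 2 * e, rfl⟩ : Sg)) ?_
  intro a b hab
  have h := congrArg Subtype.val hab
  simp only [pos] at h
  have e1 : 2 * a / 2 = a := by omega
  have e2 : 2 * b / 2 = b := by omega
  have e3 : 2 * a % 2 = 0 := by omega
  have e4 : 2 * b % 2 = 0 := by omega
  rw [e1, e2, if_pos e3, if_pos e4] at h
  have h5 : (a : ℝ) = b := by linarith
  exact_mod_cast h5

/-- the gadget -/
noncomputable def gad : CMS where
  Y := Sg
  cs := isClosed_Sg.completeSpace_coe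
  c i := ⟨pos i, i, rfl⟩
  dense := by
    have h : Function.Surjective (fun i : ℕ => (⟨pos i, i, rfl⟩ : Sg)) := by
      rintro ⟨x, i, rfl⟩
      exact ⟨i, rfl⟩
    exact h.denseRange
  comp := by
    refine ⟨fun x => (posA x.1 x.2.2 - posA x.2.1 x.2.2) + (posA x.2.1 x.2.2 - posA x.1 x.2.2),
      ?_, ?_⟩
    · have h1 : Primrec (fun x : ℕ × ℕ × ℕ => posA x.1 x.2.2) :=
        primrec_posA.comp Primrec.fst (Primrec.snd.comp Primrec.snd)
      have h2 : Primrec (fun x : ℕ × ℕ × ℕ => posA x.2.1 x.2.2) :=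
        primrec_posA.comp (Primrec.fst.comp Primrec.snd) (Primrec.snd.comp Primrec.snd)
      exact (Primrec.nat_add.comp (Primrec.nat_sub.comp h1 h2)
        (Primrec.nat_sub.comp h2 h1)).to_comp
    · intro i j k
      have h1 : (((posA i k - posA j k) + (posA j k - posA i k) : ℕ) : ℝ) =
          |(posA i k : ℝ) - posA j k| := by
        rcases le_total (posA i k) (posA j k) with h | h
        · have h' : (posA i k : ℝ) ≤ posA j k := by exact_mod_cast h
          rw [Nat.sub_eq_zero_of_le h, zero_add, Nat.cast_sub h, abs_of_nonpos (by linarith)]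
          ring
        · have h' : (posA j k : ℝ) ≤ posA i k := by exact_mod_cast h
          rw [Nat.sub_eq_zero_of_le h, add_zero, Nat.cast_sub h, abs_of_nonneg (by linarith)]
      have h2 : dist (⟨pos i, i, rfl⟩ : Sg) ⟨pos j, j, rfl⟩ = |pos i - pos j| := rfl
      show |dist (⟨pos i, i, rfl⟩ : Sg) ⟨pos j, j, rfl⟩ -
        (((posA i k - posA j k) + (posA j k - posA i k) : ℕ) : ℝ) / 2 ^ k| ≤ 1 / 2 ^ k
      rw [h2, h1]
      have h3 := pos_approx i k
      have h4 := pos_approx j k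
      have h5 : |(posA i k : ℝ) - posA j k| / 2 ^ k =
          |(posA i k : ℝ) / 2 ^ k - posA j k / 2 ^ k| := by
        rw [← sub_div, abs_div, abs_of_pos (show (0 : ℝ) < 2 ^ k by positivity)]
      rw [h5]
      refine (abs_abs_sub_abs_le_abs_sub _ _).trans ?_
      have h6 : pos i - pos j - ((posA i k : ℝ) / 2 ^ k - posA j k / 2 ^ k) =
          (pos i - (posA i k : ℝ) / 2 ^ k) - (pos j - (posA j k : ℝ) / 2 ^ k) := by ring
      rw [h6]
      refine (abs_sub _ _).trans ?_
      have h7 : (1 : ℝ) / 2 ^ k = 1 / 2 ^ (k + 1) + 1 / 2 ^ (k + 1) := by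
        rw [pow_succ]
        field_simp
        norm_num
      rw [h7]
      exact add_le_add h3 h4

theorem gad_homeo : Nonempty (gad.Y ≃ₜ ℕ) := by
  haveI : DiscreteTopology gad.Y := discrete_Sg
  haveI : Infinite gad.Y := infinite_Sg
  exact ⟨{ toEquiv := (enu gad).symm
           continuous_toFun := continuous_of_discreteTopology
           continuous_invFun := continuous_of_discreteTopology }⟩

/-- the standard presentation of the discrete space of natural numbers -/
noncomputable def std : CMS where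
  Y := ℕ
  c i := i
  dense := Function.surjective_id.denseRange
  comp := by
    refine ⟨fun x => ((x.1 - x.2.1) + (x.2.1 - x.1)) * 2 ^ x.2.2, ?_, ?_⟩
    · have hpow : Primrec₂ (fun a b : ℕ => a ^ b) := Primrec₂.unpaired'.1 Nat.Primrec.pow
      have h1 : Primrec (fun x : ℕ × ℕ × ℕ => x.1) := Primrec.fst
      have h2 : Primrec (fun x : ℕ × ℕ × ℕ => x.2.1) := Primrec.fst.comp Primrec.snd
      exact (Primrec.nat_mul.comp (Primrec.nat_add.comp (Primrec.nat_sub.comp h1 h2)
        (Primrec.nat_sub.comp h2 h1)) (hpow.comp (Primrec.const 2)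
        (Primrec.snd.comp Primrec.snd))).to_comp
    · intro i j k
      have h1 : dist i j = (((i - j) + (j - i) : ℕ) : ℝ) := by
        rw [Nat.dist_eq]
        rcases le_total i j with h | h
        · have h' : (i : ℝ) ≤ j := by exact_mod_cast h
          rw [Nat.sub_eq_zero_of_le h, zero_add, Nat.cast_sub h, abs_of_nonpos (by linarith)]
          ring
        · have h' : (j : ℝ) ≤ i := by exact_mod_cast h
          rw [Nat.sub_eq_zero_of_le h, add_zero, Nat.cast_sub h, abs_of_nonneg (by linarith)]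
      show |dist i j - ((((i - j) + (j - i)) * 2 ^ k : ℕ) : ℝ) / 2 ^ k| ≤ 1 / 2 ^ k
      rw [h1]
      have h2 : ((((i - j) + (j - i)) * 2 ^ k : ℕ) : ℝ) / 2 ^ k = (((i - j) + (j - i) : ℕ) : ℝ) := by
        push_cast
        field_simp
      rw [h2, sub_self, abs_zero]
      positivity

theorem std_homeo : Nonempty (std.Y ≃ₜ ℕ) := ⟨Homeomorph.refl ℕ⟩

/-- **Lower bound.** -/
theorem red_of_cat {a : ℕ → ℕ} (h : Cat ℕ a) : Red (chi K) a := by
  obtain ⟨g, φ, hφ, hspec⟩ := h gad std gad_homeo std_homeo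
  have hu : Computable (fun p : ℕ × ℕ => ((List.range p.2).map (fun _ => p.1), 1)) :=
    Pool.Agent.Helper583.TC.J14.comp_u (fun n => n) Computable.id 1
  have hf := Pool.Agent.Helper583.TC.J14.recIn_comp hφ hu
  obtain ⟨G, hG, hG1, hG2⟩ := select hf
  let w : ℕ → ℕ := fun i => g (gad.c i)
  have key : ∀ i, G i = Part.some (w i) := by
    intro i
    obtain ⟨q, hq, hq2⟩ := hspec (gad.c i) (fun _ => i) (fun j => by
      rw [dist_self]; positivity)
    obtain ⟨⟨r, hr⟩, huniq⟩ := hq2 1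
    have hdom : (G i).Dom := hG2 i r (Part.dom_iff_mem.2 ⟨q 1, hr⟩)
    obtain ⟨m, hm⟩ := Part.dom_iff_mem.1 hdom
    obtain ⟨r', hr'⟩ := hG1 i m hm
    have hmq : m = q 1 := huniq r' m hr'
    have h1 : dist (q 1) (w i) ≤ 1 / 2 ^ 1 := hq 1
    have h2 : q 1 = w i := by
      by_contra hne
      have h3 : (1 : ℝ) ≤ dist (q 1) (w i) := Nat.pairwise_one_le_dist hne
      norm_num at h1
      linarith
    rw [← h2, ← hmq]
    exact Part.eq_some_iff.2 hm
  have hw : Nat.RecursiveIn {orc a} (orc w) := hG.of_eq fun i => key i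
  have hw0 := r_comp hw (r_prim (O := {orc a}) (f := fun e => 2 * e)
    (Primrec.nat_mul.comp (Primrec.const 2) Primrec.id))
  have hw1 := r_comp hw (r_prim (O := {orc a}) (f := fun e => 2 * e + 1)
    (Primrec.succ.comp (Primrec.nat_mul.comp (Primrec.const 2) Primrec.id)))
  have e1 : Primrec₂ (fun a b : ℕ => if a = b then 0 else 1) :=
    Primrec.ite (Primrec.eq.comp Primrec.fst Primrec.snd) (Primrec.const 0) (Primrec.const 1)
  refine Nat.RecursiveIn.of_eq (r_map₂ e1 hw0 hw1) fun e => ?_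
  refine congrArg Part.some ?_
  show (if w (2 * e) = w (2 * e + 1) then 0 else 1) = chi K e
  have h1 : w (2 * e) = w (2 * e + 1) ↔ ¬ K e := by
    rw [← rr_eq_zero]
    have e1 : 2 * e / 2 = e := by omega
    have e2 : (2 * e + 1) / 2 = e := by omega
    have e3 : 2 * e % 2 = 0 := by omega
    have e4 : ¬ ((2 * e + 1) % 2 = 0) := by omega
    constructor
    · intro hw
      have h2 : gad.c (2 * e) = gad.c (2 * e + 1) := g.injective hw
      have h3 : pos (2 * e) = pos (2 * e + 1) := congrArg Subtype.val h2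
      unfold pos at h3
      rw [e1, e2, if_pos e3, if_neg e4] at h3
      linarith
    · intro h0
      have h3 : pos (2 * e) = pos (2 * e + 1) := by
        unfold pos
        rw [e1, e2, if_pos e3, if_neg e4, h0]
      have h2 : gad.c (2 * e) = gad.c (2 * e + 1) := Subtype.ext h3
      show g (gad.c (2 * e)) = g (gad.c (2 * e + 1))
      rw [h2]
  unfold chi
  by_cases hK : K e
  · rw [if_pos hK, if_neg (fun h => h1.1 h hK)]
  · rw [if_neg hK, if_pos (h1.2 hK)]

end Pool.Agent.Y63.TopCat
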