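import Pool.Agent.Y63.TopCat.Enum

/-!
The infinite discrete space is categorical relative to the halting set.
-/

set_option autoImplicit false

namespace Pool.Agent.Y63.TopCat

open Pool.Agent.Helper583.TC (orc Red)
open Pool.Agent.Helper583.TT (CMS IsName)
open Pool.Agent.H109R3.TC (CompMapIn Cat CatBoth)
open Pool.Agent.Helper583.TC.J2 (srchO srchO_some srchO_ne primrec_srchO rec_pre)

/-- one test of the functional -/
def tst (Y l : List ℕ) (t : ℕ) : Option ℕ :=
  if t < l.length ∧ Nat.pair (l.getD t 0) t < Y.length ∧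
      (Y.getD (Nat.pair (l.getD t 0) t) 0).unpair.1 = 0
  then some (Y.getD (Nat.pair (l.getD t 0) t) 0).unpair.2 else none

/-- the functional -/
def fn (p : List ℕ × List ℕ × ℕ) : Option ℕ := srchO (tst p.1 p.2.1) p.2.1.length

theorem primrec_fn : Primrec fn := by
  refine primrec_srchO (α := List ℕ × List ℕ × ℕ) (f := fun p t => tst p.1 p.2.1 t) ?_
    (Primrec.list_length.comp (Primrec.fst.comp Primrec.snd))
  have hl : Primrec (fun x : (List ℕ × List ℕ × ℕ) × ℕ => x.1.2.1) :=
    Primrec.fst.comp (Primrec.snd.comp Primrec.fst)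
  have hY : Primrec (fun x : (List ℕ × List ℕ × ℕ) × ℕ => x.1.1) :=
    Primrec.fst.comp Primrec.fst
  have hm : Primrec (fun x : (List ℕ × List ℕ × ℕ) × ℕ => Nat.pair (x.1.2.1.getD x.2 0) x.2) :=
    Primrec₂.natPair.comp ((Primrec.list_getD 0).comp hl Primrec.snd) Primrec.snd
  have hv : Primrec (fun x : (List ℕ × List ℕ × ℕ) × ℕ =>
      x.1.1.getD (Nat.pair (x.1.2.1.getD x.2 0) x.2) 0) := (Primrec.list_getD 0).comp hY hm
  unfold tst
  refine Primrec.ite ?_ ?_ (Primrec.const none)
  · refine PrimrecPred.and ?_ (PrimrecPred.and ?_ ?_)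
    · exact Primrec.nat_lt.comp Primrec.snd (Primrec.list_length.comp hl)
    · exact Primrec.nat_lt.comp hm (Primrec.list_length.comp hY)
    · exact Primrec.eq.comp (Primrec.fst.comp (Primrec.unpair.comp hv)) (Primrec.const 0)
  · exact Primrec.option_some.comp (Primrec.snd.comp (Primrec.unpair.comp hv))

theorem len_pre (x : ℕ → ℕ) (n : ℕ) : (Pool.Agent.Helper583.TC.pre x n).length = n := by
  simp [Pool.Agent.Helper583.TC.pre]

theorem get_pre (x : ℕ → ℕ) {n i : ℕ} (h : i < n) :
    (Pool.Agent.Helper583.TC.pre x n).getD i 0 = x i := by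
  simp [Pool.Agent.Helper583.TC.pre, List.getD, h]

theorem compMap (M N : CMS) [DiscreteTopology M.Y] [Infinite M.Y] [DiscreteTopology N.Y]
    [Infinite N.Y] : CompMapIn (chi K) M N (hom M N) := by
  have hΦ : Partrec (fun p : List ℕ × List ℕ × ℕ => (Part.ofOption (fn p) : Part ℕ)) :=
    primrec_fn.to_comp.ofOption
  refine ⟨_, rec_pre (red_dat M N) hΦ, ?_⟩
  intro x p hp
  refine ⟨fun _ => nth N (cnt M (idx M x)), ?_, ?_⟩
  · intro k
    rw [← hom_apply, dist_self]
    positivity
  -- the value of a successful test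
  have sound : ∀ k m, fn (Pool.Agent.Helper583.TC.pre (dat M N)
      (Pool.Agent.Helper583.TC.pre p k).length, Pool.Agent.Helper583.TC.pre p k, 0) = some m →
      m = nth N (cnt M (idx M x)) := by
    intro k m hm
    obtain ⟨t, ht, htm⟩ := srchO_some _ _ _ hm
    unfold tst at htm
    simp only [len_pre] at ht htm
    split at htm
    · rename_i hc
      obtain ⟨-, h2, h3⟩ := hc
      rw [get_pre p ht] at h2 h3 htm
      rw [get_pre _ h2] at h3 htm
      unfold dat at h3 htm
      rw [Nat.unpair_pair] at h3 htm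
      simp only [Nat.unpair_pair, Option.some.injEq] at h3 htm
      have h4 : ¬ NI M (Nat.pair (p t) t) := by
        intro h
        rw [chi, if_pos h] at h3
        exact one_ne_zero h3
      have h5 : M.c (p t) = x := by
        by_contra hne
        obtain ⟨j, hj⟩ := surj M x
        apply h4
        refine ⟨j, ?_, ?_⟩
        · rw [Nat.unpair_pair, hj]
          exact fun h => hne h.symm
        · rw [Nat.unpair_pair, hj]
          refine lt_of_le_of_lt (hp t) ?_
          apply div_lt_div_of_pos_right _ (by positivity)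
          norm_num
      rw [← htm]
      show nth N (cnt M (idx M (M.c (p t)))) = _
      rw [h5]
    · simp at htm
  intro n
  constructor
  · -- a successful test exists
    obtain ⟨r, hr, hball⟩ : ∃ r > 0, ∀ z : M.Y, dist z x < r → z = x := by
      have h1 : ({x} : Set M.Y) ∈ nhds x := by
        rw [nhds_discrete]
        exact Filter.mem_pure.2 rfl
      obtain ⟨r, hr, h2⟩ := Metric.mem_nhds_iff.1 h1
      exact ⟨r, hr, fun z hz => h2 (Metric.mem_ball.2 hz)⟩
    obtain ⟨t, ht⟩ := exists_pow_lt_of_lt_one (show 0 < r / 2 by linarith)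
      (show (1 / 2 : ℝ) < 1 by norm_num)
    rw [one_div_pow] at ht
    have h5 : M.c (p t) = x := by
      apply hball
      have := hp t
      linarith
    have h4 : ¬ NI M (Nat.pair (p t) t) := by
      rintro ⟨j, h1, h2⟩
      rw [Nat.unpair_pair] at h1 h2
      simp only at h1 h2
      rw [h5] at h1 h2
      apply h1
      apply hball
      rw [dist_comm]
      have h3 : (2 : ℝ) / 2 ^ t = 2 * (1 / 2 ^ t) := by ring
      linarith
    refine ⟨max (t + 1) (Nat.pair (p t) t + 1), ?_⟩
    set k := max (t + 1) (Nat.pair (p t) t + 1) with hk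
    have hk1 : t < k := by omega
    have hk2 : Nat.pair (p t) t < k := by omega
    have h6 : tst (Pool.Agent.Helper583.TC.pre (dat M N) (Pool.Agent.Helper583.TC.pre p k).length)
        (Pool.Agent.Helper583.TC.pre p k) t = some (tau M N (p t)) := by
      unfold tst
      simp only [len_pre]
      rw [get_pre p hk1, get_pre _ hk2]
      unfold dat
      rw [Nat.unpair_pair]
      simp only [Nat.unpair_pair]
      rw [if_pos]
      exact ⟨hk1, hk2, by rw [chi, if_neg h4]⟩
    obtain ⟨v, hv⟩ := srchO_ne (tst (Pool.Agent.Helper583.TC.pre (dat M N)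
      (Pool.Agent.Helper583.TC.pre p k).length) (Pool.Agent.Helper583.TC.pre p k))
      (Pool.Agent.Helper583.TC.pre p k).length t _ (by rw [len_pre]; exact hk1) h6
    have h7 := sound k v hv
    show nth N (cnt M (idx M x)) ∈ (Part.ofOption (srchO (tst (Pool.Agent.Helper583.TC.pre
      (dat M N) (Pool.Agent.Helper583.TC.pre p k).length) (Pool.Agent.Helper583.TC.pre p k))
      (Pool.Agent.Helper583.TC.pre p k).length) : Part ℕ)
    rw [Part.mem_ofOption, hv, h7]
    rfl
  · intro k m hm
    have h1 : m ∈ (Part.ofOption (srchO (tst (Pool.Agent.Helper583.TC.pre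
      (dat M N) (Pool.Agent.Helper583.TC.pre p k).length) (Pool.Agent.Helper583.TC.pre p k))
      (Pool.Agent.Helper583.TC.pre p k).length) : Part ℕ) := hm
    rw [Part.mem_ofOption] at h1
    exact sound k m h1

theorem discrete_of {M : CMS} (h : Nonempty (M.Y ≃ₜ ℕ)) : DiscreteTopology M.Y := by
  obtain ⟨g⟩ := h
  exact g.isEmbedding.discreteTopology

theorem infinite_of {M : CMS} (h : Nonempty (M.Y ≃ₜ ℕ)) : Infinite M.Y := by
  obtain ⟨g⟩ := h
  exact Infinite.of_injective g.symm g.symm.injective

/-- **Upper bound.** -/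
theorem catBoth_K : CatBoth ℕ (chi K) := by
  intro M N hM hN
  haveI := discrete_of hM
  haveI := infinite_of hM
  haveI := discrete_of hN
  haveI := infinite_of hN
  refine ⟨hom M N, compMap M N, ?_⟩
  rw [hom_symm]
  exact compMap N M

end Pool.Agent.Y63.TopCat
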