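import Pool.Agent.Y63.TopCat.Basic
import Pool.Agent.H109R3.TC.Stmt

/-!
The halting set computes homeomorphisms between computable presentations of the infinite discrete
space.
-/

set_option autoImplicit false

namespace Pool.Agent.Y63.TopCat

open Pool.Agent.Helper583.TC (orc Red)
open Pool.Agent.Helper583.TT (CMS IsName)
open Pool.Agent.H109R3.TC (CompMapIn Cat CatBoth)

theorem rePred_ex {f : ℕ → ℕ → Bool} (hf : Computable₂ f) : REPred (fun n => ∃ s, f n s = true) := by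
  have h1 : Partrec (fun n : ℕ => Nat.rfind (fun s => (Part.some (f n s) : Part Bool))) :=
    Partrec.rfind hf.partrec₂
  refine (Partrec.dom_re h1).of_eq fun n => Iff.trans Nat.rfind_dom ?_
  constructor
  · rintro ⟨s, hs, -⟩
    exact ⟨s, (Part.mem_some_iff.1 hs).symm⟩
  · rintro ⟨s, hs⟩
    exact ⟨s, Part.mem_some_iff.2 hs.symm, fun {m} _ => trivial⟩

section
variable (M : CMS)

/-- two indices of different points -/
def NE (m : ℕ) : Prop := M.c m.unpair.1 ≠ M.c m.unpair.2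

/-- the ball around the point with index `i` and of radius `2 / 2 ^ t` contains another point -/
def NI (m : ℕ) : Prop := ∃ j, M.c j ≠ M.c m.unpair.1 ∧
  dist (M.c m.unpair.1) (M.c j) < 2 / 2 ^ m.unpair.2

variable {M}

theorem ne_iff {q : ℕ × ℕ × ℕ → ℕ}
    (hq : ∀ i j k, |dist (M.c i) (M.c j) - (q (i, j, k) : ℝ) / 2 ^ k| ≤ 1 / 2 ^ k) (i j : ℕ) :
    M.c i ≠ M.c j ↔ ∃ k, 2 ≤ q (i, j, k) := by
  constructor
  · intro h
    have h0 : 0 < dist (M.c i) (M.c j) := dist_pos.2 h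
    obtain ⟨k, hk⟩ := exists_pow_lt_of_lt_one (show 0 < dist (M.c i) (M.c j) / 2 by linarith)
      (show (1 / 2 : ℝ) < 1 by norm_num)
    refine ⟨k, ?_⟩
    have h1 := (abs_le.1 (hq i j k)).2
    have h2 : (1 : ℝ) / 2 ^ k < dist (M.c i) (M.c j) / 2 := by
      rw [one_div_pow] at hk
      exact hk
    have h3 : (1 : ℝ) / 2 ^ k < (q (i, j, k) : ℝ) / 2 ^ k := by linarith
    have h4 : (1 : ℝ) < q (i, j, k) := by
      rwa [div_lt_div_iff_of_pos_right (by positivity)] at h3
    exact_mod_cast h4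
  · rintro ⟨k, hk⟩ h
    have h1 := (abs_le.1 (hq i j k)).1
    rw [h, dist_self] at h1
    have h2 : (2 : ℝ) / 2 ^ k ≤ (q (i, j, k) : ℝ) / 2 ^ k := by
      apply div_le_div_of_nonneg_right _ (by positivity)
      exact_mod_cast hk
    have h3 : (1 : ℝ) / 2 ^ k < 2 / 2 ^ k := by
      apply div_lt_div_of_pos_right _ (by positivity)
      norm_num
    linarith

theorem lt_iff {q : ℕ × ℕ × ℕ → ℕ}
    (hq : ∀ i j k, |dist (M.c i) (M.c j) - (q (i, j, k) : ℝ) / 2 ^ k| ≤ 1 / 2 ^ k) (i j t : ℕ) :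
    dist (M.c i) (M.c j) < 2 / 2 ^ t ↔ ∃ k, (q (i, j, k) + 1) * 2 ^ t < 2 * 2 ^ k := by
  constructor
  · intro h
    obtain ⟨k, hk⟩ := exists_pow_lt_of_lt_one
      (show 0 < (2 / 2 ^ t - dist (M.c i) (M.c j)) / 2 by linarith)
      (show (1 / 2 : ℝ) < 1 by norm_num)
    refine ⟨k, ?_⟩
    have h1 := (abs_le.1 (hq i j k)).1
    have h2 : (1 : ℝ) / 2 ^ k < (2 / 2 ^ t - dist (M.c i) (M.c j)) / 2 := by
      rw [one_div_pow] at hk
      exact hk
    have h3 : ((q (i, j, k) : ℝ) + 1) / 2 ^ k < 2 / 2 ^ t := by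
      rw [add_div]
      linarith
    rw [div_lt_div_iff₀ (by positivity) (by positivity)] at h3
    exact_mod_cast h3
  · rintro ⟨k, hk⟩
    have h3 : ((q (i, j, k) : ℝ) + 1) * 2 ^ t < 2 * 2 ^ k := by exact_mod_cast hk
    rw [← div_lt_div_iff₀ (by positivity) (by positivity), add_div] at h3
    have h1 := (abs_le.1 (hq i j k)).2
    linarith

theorem ne_re (M : CMS) : REPred (NE M) := by
  obtain ⟨q, hqc, hq⟩ := M.comp
  have h1 : Computable₂ (fun (m k : ℕ) => decide (2 ≤ q (m.unpair.1, m.unpair.2, k))) := by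
    have h2 : Computable (fun x : ℕ × ℕ => q (x.1.unpair.1, x.1.unpair.2, x.2)) :=
      hqc.comp ((Computable.fst.comp (Computable.unpair.comp Computable.fst)).pair
        ((Computable.snd.comp (Computable.unpair.comp Computable.fst)).pair Computable.snd))
    have h3 : Primrec (fun n : ℕ => decide (2 ≤ n)) :=
      (Primrec.nat_le.comp (Primrec.const 2) Primrec.id).decide
    exact h3.to_comp.comp h2
  refine (rePred_ex h1).of_eq fun m => ?_
  unfold NE
  rw [ne_iff hq]
  simp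

theorem ni_re (M : CMS) : REPred (NI M) := by
  obtain ⟨q, hqc, hq⟩ := M.comp
  have h1 : Computable₂ (fun (m s : ℕ) =>
      decide (2 ≤ q (s.unpair.1, m.unpair.1, s.unpair.2.unpair.1)) &&
      decide ((q (m.unpair.1, s.unpair.1, s.unpair.2.unpair.2) + 1) * 2 ^ m.unpair.2 <
        2 * 2 ^ s.unpair.2.unpair.2)) := by
    have p1 : Computable (fun x : ℕ × ℕ => x.2.unpair.1) :=
      (Primrec.fst.comp (Primrec.unpair.comp Primrec.snd)).to_comp
    have p2 : Computable (fun x : ℕ × ℕ => x.1.unpair.1) :=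
      (Primrec.fst.comp (Primrec.unpair.comp Primrec.fst)).to_comp
    have p3 : Computable (fun x : ℕ × ℕ => x.2.unpair.2.unpair.1) :=
      (Primrec.fst.comp (Primrec.unpair.comp (Primrec.snd.comp (Primrec.unpair.comp
        Primrec.snd)))).to_comp
    have p4 : Primrec (fun x : ℕ × ℕ => x.2.unpair.2.unpair.2) :=
      (Primrec.snd.comp (Primrec.unpair.comp (Primrec.snd.comp (Primrec.unpair.comp
        Primrec.snd))))
    have p5 : Primrec (fun x : ℕ × ℕ => x.1.unpair.2) :=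
      Primrec.snd.comp (Primrec.unpair.comp Primrec.fst)
    have a1 : Computable (fun x : ℕ × ℕ => q (x.2.unpair.1, x.1.unpair.1,
        x.2.unpair.2.unpair.1)) := hqc.comp (p1.pair (p2.pair p3))
    have a2 : Computable (fun x : ℕ × ℕ => q (x.1.unpair.1, x.2.unpair.1,
        x.2.unpair.2.unpair.2)) := hqc.comp (p2.pair (p1.pair p4.to_comp))
    have hpow : Primrec₂ (fun a b : ℕ => a ^ b) :=
      Primrec₂.unpaired'.1 Nat.Primrec.pow
    have f1 : Primrec (fun n : ℕ => decide (2 ≤ n)) :=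
      (Primrec.nat_le.comp (Primrec.const 2) Primrec.id).decide
    have f2 : Primrec (fun y : ℕ × ℕ × ℕ => decide ((y.1 + 1) * 2 ^ y.2.1 < 2 * 2 ^ y.2.2)) := by
      refine (Primrec.nat_lt.comp ?_ ?_).decide
      · exact Primrec.nat_mul.comp (Primrec.succ.comp Primrec.fst)
          (hpow.comp (Primrec.const 2) (Primrec.fst.comp Primrec.snd))
      · exact Primrec.nat_mul.comp (Primrec.const 2)
          (hpow.comp (Primrec.const 2) (Primrec.snd.comp Primrec.snd))
    have g1 := f1.to_comp.comp a1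
    have g2 := f2.to_comp.comp (a2.pair (p5.to_comp.pair p4.to_comp))
    exact Primrec.and.to_comp.comp g1 g2
  refine (rePred_ex h1).of_eq fun m => ?_
  unfold NI
  constructor
  · rintro ⟨s, hs⟩
    rw [Bool.and_eq_true, decide_eq_true_iff, decide_eq_true_iff] at hs
    exact ⟨s.unpair.1, (ne_iff hq _ _).2 ⟨_, hs.1⟩, (lt_iff hq _ _ _).2 ⟨_, hs.2⟩⟩
  · rintro ⟨j, h1, h2⟩
    obtain ⟨k, hk⟩ := (ne_iff hq _ _).1 h1
    obtain ⟨l, hl⟩ := (lt_iff hq _ _ _).1 h2
    refine ⟨Nat.pair j (Nat.pair k l), ?_⟩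
    rw [Bool.and_eq_true, decide_eq_true_iff, decide_eq_true_iff]
    simp only [Nat.unpair_pair]
    exact ⟨hk, hl⟩

end

end Pool.Agent.Y63.TopCat
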